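import Pool.Agent.Hhelper63.Anosov.Main
import Pool.Agent.Hhelper67.Anosov.Member

/-!
Case (a): `ρ₃` and `ρ₂ ⊕ ρ₁` lie in different connected components of the space of
`{1, 2}`-Anosov representations in `SL(3, ℂ)`.
-/

namespace Pool.Agent.Results.MP_12b54f_gt.CaseA

open Pool.Agent.Hhelper67.Anosov

/-- Let `φ : Γ → SL(2, ℝ)` be discrete and faithful with cocompact image, `Γ` finitely generated
by `S`. Then `ρ₃` and `ρ₂ ⊕ ρ₁` are `{1, 2}`-Anosov and lie in different connected components of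
the space of `{1, 2}`-Anosov representations; they even lie in different components of the space
of `{1}`-Anosov representations. -/
theorem result {Γ : Type*} [Group Γ] (S : Finset Γ) (hS : Subgroup.closure (S : Set Γ) = ⊤)
    (φ : Γ →* X) (hinj : Function.Injective φ) (hdisc : DiscreteTopology φ.range)
    (hcoc : CompactSpace (X ⧸ φ.range)) (θ : Set ℕ) (hθ1 : 1 ∈ θ) (hθ : θ ⊆ {1, 2}) :
    ⇑(rho3 φ) ∈ anosovSet 3 S θ ∧ ⇑(rho21 φ) ∈ anosovSet 3 S θ ∧
      ⇑(rho21 φ) ∉ connectedComponentIn (anosovSet 3 S θ) ⇑(rho3 φ) := by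
  have h3 := (rho3_anosov S hS hinj hdisc hcoc).mono hθ
  have h21 := (rho21_anosov S hS hinj hdisc hcoc).mono hθ
  exact ⟨⟨_, h3, rfl⟩, ⟨_, h21, rfl⟩,
    Pool.Agent.Hhelper63.Anosov.separation_rho hS φ hinj hdisc hcoc hθ1 h3 h21⟩

end Pool.Agent.Results.MP_12b54f_gt.CaseA
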