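import Pool.Agent.Hhelper63.AnT.FullOf
import Pool.Agent.AnB.MainB
import Pool.Agent.Teich.Main

/-!
Case (b): `ρ₄` and `ρ₂ ⊕ ρ₂` lie in one connected component of the space of `{2}`-Anosov
representations in `SL(4, ℂ)`, for every Fuchsian representation of every closed surface group.
-/

namespace Pool.Agent.Results.MP_12b54f_gt.CaseB

open Pool.Agent.Hhelper67.Anosov Pool.Agent.Hhelper63.AnT

/-- Let `g ≥ 2`, let `φ : Surf g → SL(2, ℝ)` be discrete and faithful with cocompact image, and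
`S` a finite generating set. Then `ρ₄` and `ρ₂ ⊕ ρ₂` are `{2}`-Anosov and lie in one connected
component of the space of `{2}`-Anosov representations in `SL(4, ℂ)`. -/
theorem result (g : ℕ) (hg : 2 ≤ g) (S : Finset (Surf g))
    (hS : Subgroup.closure (S : Set (Surf g)) = ⊤) (φ : Surf g →* X)
    (hinj : Function.Injective φ) (hdisc : DiscreteTopology φ.range)
    (hcoc : CompactSpace (X ⧸ φ.range)) :
    ⇑(rho4 φ) ∈ anosovSet 4 S {2} ∧ ⇑(rho22 φ) ∈ anosovSet 4 S {2} ∧
      ⇑(rho22 φ) ∈ connectedComponentIn (anosovSet 4 S {2}) ⇑(rho4 φ) :=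
  case_b_of (Pool.Teich.teich_stmt g hg) (Pool.Agent.AnB.main_b g hg) S hS φ hinj hdisc hcoc

end Pool.Agent.Results.MP_12b54f_gt.CaseB
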