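import Pool.Agent.Hhelper63.AnT.FullOf
import Pool.Agent.Teich.Main

/-!
Case (c): `ρ₄` and `ρ₂ ⊕ ρ₁ ⊕ ρ₁` lie in one connected component of the space of
`{1}`-Anosov representations in `Sp(4, ℂ)`, for every Fuchsian representation of every closed
surface group.
-/

namespace Pool.Agent.Results.MP_12b54f_gt.CaseC

open Pool.Agent.Hhelper67.Anosov Pool.Agent.Hhelper63.AnT

/-- Let `g ≥ 2`, let `φ : Surf g → SL(2, ℝ)` be discrete and faithful with cocompact image, and
`S` a finite generating set. Then `ρ₄` and `ρ₂ ⊕ ρ₁ ⊕ ρ₁` are `{1}`-Anosov with values in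
`Sp(4, ℂ)` and lie in one connected component of the space of `{1}`-Anosov representations in
`Sp(4, ℂ)`. -/
theorem result (g : ℕ) (hg : 2 ≤ g) (S : Finset (Surf g))
    (hS : Subgroup.closure (S : Set (Surf g)) = ⊤) (φ : Surf g →* X)
    (hinj : Function.Injective φ) (hdisc : DiscreteTopology φ.range)
    (hcoc : CompactSpace (X ⧸ φ.range)) :
    ⇑(rho4 φ) ∈ anosovSp S {1} ∧ ⇑(rho211 φ) ∈ anosovSp S {1} ∧
      ⇑(rho211 φ) ∈ connectedComponentIn (anosovSp S {1}) ⇑(rho4 φ) :=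
  case_c_of hg (Pool.Teich.teich_stmt g hg) S hS φ hinj hdisc hcoc

end Pool.Agent.Results.MP_12b54f_gt.CaseC
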