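import Pool.Agent.Hhelper63.AnT.FullOf
import Pool.Agent.Hhelper63.Anosov.Main
import Pool.Agent.Hhelper67.Anosov.Member
import Pool.Agent.AnB.MainB
import Pool.Agent.Teich.Main

/-!
The three cases together: (a) different components, (b) and (c) the same component.
-/

namespace Pool.Agent.Results.MP_12b54f_gt.Full

open Pool.Agent.Hhelper67.Anosov Pool.Agent.Hhelper63.AnT

/-- Let `g ≥ 2`, let `φ : Surf g → SL(2, ℝ)` be discrete and faithful with cocompact image, and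
`S` a finite generating set.
(a) `ρ₃` and `ρ₂ ⊕ ρ₁` lie in different components of the space of `{1, 2}`-Anosov
representations in `SL(3, ℂ)`.
(b) `ρ₄` and `ρ₂ ⊕ ρ₂` lie in one component of the space of `{2}`-Anosov representations in
`SL(4, ℂ)`.
(c) `ρ₄` and `ρ₂ ⊕ ρ₁ ⊕ ρ₁` lie in one component of the space of `{1}`-Anosov
representations in `Sp(4, ℂ)`. -/
theorem result (g : ℕ) (hg : 2 ≤ g) (S : Finset (Surf g))
    (hS : Subgroup.closure (S : Set (Surf g)) = ⊤) (φ : Surf g →* X)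
    (hinj : Function.Injective φ) (hdisc : DiscreteTopology φ.range)
    (hcoc : CompactSpace (X ⧸ φ.range)) :
    (⇑(rho3 φ) ∈ anosovSet 3 S {1, 2} ∧ ⇑(rho21 φ) ∈ anosovSet 3 S {1, 2} ∧
      ⇑(rho21 φ) ∉ connectedComponentIn (anosovSet 3 S {1, 2}) ⇑(rho3 φ)) ∧
    (⇑(rho4 φ) ∈ anosovSet 4 S {2} ∧ ⇑(rho22 φ) ∈ anosovSet 4 S {2} ∧
      ⇑(rho22 φ) ∈ connectedComponentIn (anosovSet 4 S {2}) ⇑(rho4 φ)) ∧
    (⇑(rho4 φ) ∈ anosovSp S {1} ∧ ⇑(rho211 φ) ∈ anosovSp S {1} ∧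
      ⇑(rho211 φ) ∈ connectedComponentIn (anosovSp S {1}) ⇑(rho4 φ)) := by
  have h3 := rho3_anosov S hS hinj hdisc hcoc
  have h21 := rho21_anosov S hS hinj hdisc hcoc
  exact ⟨⟨⟨_, h3, rfl⟩, ⟨_, h21, rfl⟩,
      Pool.Agent.Hhelper63.Anosov.separation_rho hS φ hinj hdisc hcoc (by simp) h3 h21⟩,
    case_b_of (Pool.Teich.teich_stmt g hg) (Pool.Agent.AnB.main_b g hg) S hS φ hinj hdisc hcoc,
    case_c_of hg (Pool.Teich.teich_stmt g hg) S hS φ hinj hdisc hcoc⟩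

end Pool.Agent.Results.MP_12b54f_gt.Full
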